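import Pool.Agent.H5.SRG.Defs

/-!
[SRG AsyL] PROOF. `λ = log n`, `d = n p` in `[1/λ, 10^(-26) λ]`, `D = DD n p`, `M = n / (2 D)` (natural division),
`q = 1 - (1-p)^M`. For `n` large `D <= λ`, `M >= n/(4D)`, `p M <= 1`, and `1 - q = (1-p)^M <= exp(-pM) <= 1 - pM/2`, so
`q >= pM/2 >= d/(8D)`. `(d/(8D))^D >= n^(-1/2)`, i.e. `D log(8D/d) <= λ/2`: `D <= E + 1` with
`E = max(λ/(8 log λ), 10^22 d)`. If `E = λ/(8 log λ)`: `8D/d <= 8 D λ <= λ^2`, `D log(8D/d) <= 2 (E+1) log λ <= λ/4 + 2 log λ`.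
If `E = 10^22 d >= λ/(8 log λ)` (so `E` is large, `D <= 2E` is enough): `log(8D/d) <= log(16 * 10^22) <= 60`,
`D log(8D/d) <= 120 * 10^22 * 10^(-26) λ <= λ/2`. So the left side is `<= (1 - n^(-1/2))^(n/2) <= exp(-n^(1/2)/3) <= n^(-A)/2`.
-/

set_option autoImplicit false

namespace Pool.Agent.H5.SRG

private theorem asyL_log {x : ℝ} (h : 256 ≤ x) : 8 * Real.log x ≤ x - 16 := by
  have hx : 0 < x := by linarith
  have h1 : Real.sqrt x * Real.sqrt x = x := Real.mul_self_sqrt hx.le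
  have h2 : Real.log (Real.sqrt x) = Real.log x / 2 := Real.log_sqrt hx.le
  have h3 : 16 ≤ Real.sqrt x := by
    rw [show (16 : ℝ) = Real.sqrt (16 ^ 2) by rw [Real.sqrt_sq (by norm_num)]]
    exact Real.sqrt_le_sqrt (by linarith)
  have h4 := Real.log_le_sub_one_of_pos (Real.sqrt_pos.2 hx)
  rw [h2] at h4
  nlinarith

private theorem asyL_q {p : ℝ} {M : ℕ} (h0 : 0 ≤ p) (h1 : p ≤ 1) (h : p * M ≤ 1) :
    p * M / 2 ≤ 1 - (1 - p) ^ M := by
  have h2 : (1 - p) ^ M ≤ Real.exp (-(p * M)) := by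
    have h3 : 1 - p ≤ Real.exp (-p) := Real.one_sub_le_exp_neg p
    have h4 : (1 - p) ^ M ≤ Real.exp (-p) ^ M := pow_le_pow_left₀ (by linarith) h3 M
    rw [← Real.exp_nat_mul] at h4
    have h5 : (M : ℝ) * -p = -(p * M) := by ring
    rwa [h5] at h4
  have hx0 : 0 ≤ p * M := mul_nonneg h0 (Nat.cast_nonneg _)
  have h6 : Real.exp (-(p * M)) * (1 + p * M) ≤ 1 := by
    have h7 : 1 + p * M ≤ Real.exp (p * M) := by
      have := Real.add_one_le_exp (p * M)
      linarith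
    calc Real.exp (-(p * M)) * (1 + p * M) ≤ Real.exp (-(p * M)) * Real.exp (p * M) :=
          mul_le_mul_of_nonneg_left h7 (Real.exp_pos _).le
      _ = 1 := by rw [← Real.exp_add]; simp
  have h8 : Real.exp (-(p * M)) ≤ 1 - p * M / 2 := by
    have h9 : Real.exp (-(p * M)) * (1 + p * M) ≤ (1 - p * M / 2) * (1 + p * M) := by
      nlinarith
    exact le_of_mul_le_mul_right h9 (by linarith)
  linarith

private theorem asyL_pow {y L : ℝ} {D : ℕ} (hy : 0 < y) (h : (D : ℝ) * Real.log (1 / y) ≤ L) :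
    Real.exp (-L) ≤ y ^ D := by
  have h1 : y ^ D = Real.exp (D * Real.log y) := by
    rw [Real.exp_nat_mul, Real.exp_log hy]
  rw [h1]
  apply Real.exp_le_exp.2
  rw [one_div, Real.log_inv] at h
  linarith

private theorem asyL_fin {w x : ℝ} {m : ℕ} (h0 : w ≤ x) (h1 : x ≤ 1) :
    (1 - x) ^ m ≤ Real.exp (-(w * m)) := by
  have h3 : 1 - x ≤ Real.exp (-w) := (Real.one_sub_le_exp_neg x).trans (Real.exp_le_exp.2 (by linarith))
  have h4 : (1 - x) ^ m ≤ Real.exp (-w) ^ m := pow_le_pow_left₀ (by linarith) h3 m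
  rw [← Real.exp_nat_mul] at h4
  have h5 : (m : ℝ) * -w = -(w * m) := by ring
  rwa [h5] at h4

/-- the logarithmic inequality -/
private theorem asyL_D {l d : ℝ} {D : ℕ} (hl : 256 ≤ l) (hd1 : 1 / l ≤ d) (hd2 : d ≤ 10 ^ (-26 : ℤ) * l)
    (hD : D = ⌈max (l / (8 * Real.log l)) (10 ^ 22 * d)⌉₊) :
    1 ≤ (D : ℝ) ∧ 8 * (D : ℝ) ≤ l ∧ 10 ^ 22 * d ≤ D ∧ (D : ℝ) * Real.log (1 / (d / (8 * D))) ≤ l / 2 := by
  have hl0 : 0 < l := by linarith
  have hlog := asyL_log hl
  have hlog5 : 5 ≤ Real.log l := by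
    have h1 : Real.log 256 ≤ Real.log l := Real.log_le_log (by norm_num) hl
    have h2 : Real.log 256 = 8 * Real.log 2 := by
      rw [show (256 : ℝ) = 2 ^ 8 by norm_num, Real.log_pow]
      norm_num
    have h3 := Real.log_two_gt_d9
    linarith
  have hlogpos : 0 < Real.log l := by linarith
  have hd0 : 0 < d := lt_of_lt_of_le (by positivity) hd1
  have hd2' : d ≤ l / 10 ^ 26 := by
    have h1 : (10 : ℝ) ^ (-26 : ℤ) = 1 / 10 ^ 26 := by
      rw [zpow_neg]
      norm_num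
    rw [h1] at hd2
    rw [div_eq_mul_one_div, mul_comm]
    exact hd2
  set E : ℝ := max (l / (8 * Real.log l)) (10 ^ 22 * d) with hE
  have hE1 : 1 ≤ l / (8 * Real.log l) := by
    rw [le_div_iff₀ (by linarith)]
    linarith
  have hE1' : 1 ≤ E := hE1.trans (le_max_left _ _)
  have hDE : E ≤ D := by
    rw [hD]
    exact Nat.le_ceil _
  have hDE' : (D : ℝ) < E + 1 := by
    rw [hD]
    exact Nat.ceil_lt_add_one (by linarith)
  have hq1 : l / (8 * Real.log l) ≤ l / 40 := by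
    apply div_le_div_of_nonneg_left hl0.le (by norm_num)
    linarith
  have hq2 : 10 ^ 22 * d ≤ l / 40 := by
    have : (10 : ℝ) ^ 22 * d ≤ 10 ^ 22 * (l / 10 ^ 26) := mul_le_mul_of_nonneg_left hd2' (by norm_num)
    have h2 : (10 : ℝ) ^ 22 * (l / 10 ^ 26) = l / 10 ^ 4 := by ring
    rw [h2] at this
    have h3 : l / 10 ^ 4 ≤ l / 40 := div_le_div_of_nonneg_left hl0.le (by norm_num) (by norm_num)
    linarith
  have hE2 : E ≤ l / 40 := max_le hq1 hq2
  have hD8 : 8 * (D : ℝ) ≤ l := by linarith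
  have hD1 : (1 : ℝ) ≤ D := by linarith
  refine ⟨hD1, hD8, (le_max_right _ _).trans hDE, ?_⟩
  have hDpos : (0 : ℝ) < D := by linarith
  rw [one_div_div]
  rcases le_total (10 ^ 22 * d) (l / (8 * Real.log l)) with h | h
  · have hEe : E = l / (8 * Real.log l) := max_eq_left h
    have h1 : 8 * (D : ℝ) / d ≤ l ^ 2 := by
      rw [div_le_iff₀ hd0]
      have h2 : l ^ 2 * (1 / l) ≤ l ^ 2 * d := mul_le_mul_of_nonneg_left hd1 (by positivity)
      have h3 : l ^ 2 * (1 / l) = l := by field_simp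
      linarith
    have h2 : Real.log (8 * (D : ℝ) / d) ≤ 2 * Real.log l := by
      have h3 := Real.log_le_log (by positivity : (0 : ℝ) < 8 * (D : ℝ) / d) h1
      rw [Real.log_pow] at h3
      push_cast at h3
      exact h3
    have h4 : (D : ℝ) * Real.log (8 * (D : ℝ) / d) ≤ (E + 1) * (2 * Real.log l) :=
      mul_le_mul hDE'.le h2 (Real.log_nonneg (by
        rw [le_div_iff₀ hd0]
        have h22 : d ≤ 10 ^ 22 * d := by
          have : (1 : ℝ) * d ≤ 10 ^ 22 * d := mul_le_mul_of_nonneg_right (by norm_num) hd0.le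
          linarith
        have := (le_max_right (l / (8 * Real.log l)) (10 ^ 22 * d)).trans hDE
        linarith)) (by linarith)
    have h5 : (E + 1) * (2 * Real.log l) = l / 4 + 2 * Real.log l := by
      rw [hEe]
      field_simp
      ring
    linarith
  · have hEe : E = 10 ^ 22 * d := max_eq_right h
    have h1 : (D : ℝ) ≤ 2 * (10 ^ 22 * d) := by
      rw [hEe] at hDE' hE1'
      linarith
    have h2 : 8 * (D : ℝ) / d ≤ 2 ^ 4 * 10 ^ 22 := by
      rw [div_le_iff₀ hd0]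
      linarith
    have h3 : Real.log (8 * (D : ℝ) / d) ≤ 60 := by
      have h4 := Real.log_le_log (by positivity : (0 : ℝ) < 8 * (D : ℝ) / d) h2
      have h5 : (2 : ℝ) ^ 4 * 10 ^ 22 ≤ 2 ^ 80 := by norm_num
      have h6 := h4.trans (Real.log_le_log (by positivity) h5)
      rw [Real.log_pow] at h6
      have h7 := Real.log_two_lt_d9
      push_cast at h6
      linarith
    have h4 : (D : ℝ) * Real.log (8 * (D : ℝ) / d) ≤ 2 * (10 ^ 22 * d) * 60 := by
      calc (D : ℝ) * Real.log (8 * (D : ℝ) / d) ≤ D * 60 := mul_le_mul_of_nonneg_left h3 hDpos.le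
        _ ≤ 2 * (10 ^ 22 * d) * 60 := mul_le_mul_of_nonneg_right h1 (by norm_num)
    have h5 : 2 * (10 ^ 22 * d) * 60 ≤ 2 * (10 ^ 22 * (l / 10 ^ 26)) * 60 := by
      refine mul_le_mul_of_nonneg_right ?_ (by norm_num)
      refine mul_le_mul_of_nonneg_left ?_ (by norm_num)
      exact mul_le_mul_of_nonneg_left hd2' (by norm_num)
    have h6 : 2 * ((10 : ℝ) ^ 22 * (l / 10 ^ 26)) * 60 = l * (12 / 1000) := by ring
    rw [h6] at h5
    linarith

theorem asyL (A : ℝ) (hA : 0 < A) : ∃ n0 : ℕ, ∀ n : ℕ, n0 ≤ n → ∀ p : ℝ,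
    1 / (n * Real.log n) ≤ p → p ≤ 10 ^ (-26 : ℤ) * Real.log n / n →
    (1 - (1 - (1 - p) ^ (n / (2 * DD n p))) ^ (DD n p)) ^ (n / 2) ≤ (n : ℝ) ^ (-A) / 2 := by
  refine ⟨⌈Real.exp 256⌉₊ + ⌈(12 * A + 3) ^ 4⌉₊, fun n hn p hp1 hp2 => ?_⟩
  have hn1 : Real.exp 256 ≤ n := by
    have h1 := Nat.le_ceil (Real.exp 256)
    have h2 : ((⌈Real.exp 256⌉₊ : ℕ) : ℝ) ≤ n := by exact_mod_cast (by omega : ⌈Real.exp 256⌉₊ ≤ n)
    linarith
  have hn2 : (12 * A + 3) ^ 4 ≤ (n : ℝ) := by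
    have h1 := Nat.le_ceil ((12 * A + 3) ^ 4)
    have h2 : ((⌈(12 * A + 3) ^ 4⌉₊ : ℕ) : ℝ) ≤ n := by
      exact_mod_cast (by omega : ⌈(12 * A + 3) ^ 4⌉₊ ≤ n)
    linarith
  have hn0 : (0 : ℝ) < n := lt_of_lt_of_le (Real.exp_pos _) hn1
  set l : ℝ := Real.log n with hl
  have hl256 : 256 ≤ l := by
    rw [hl, Real.le_log_iff_exp_le hn0]
    exact hn1
  have hn257 : (257 : ℝ) ≤ n := by
    have := Real.add_one_le_exp (256 : ℝ)
    linarith
  have hln : 8 * l ≤ n - 16 := asyL_log (by linarith)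
  have hl0 : 0 < l := by linarith
  have hp0 : 0 < p := lt_of_lt_of_le (by positivity) hp1
  have hd1 : 1 / l ≤ n * p := by
    have h1 := mul_le_mul_of_nonneg_left hp1 hn0.le
    have h2 : (n : ℝ) * (1 / (n * l)) = 1 / l := by field_simp
    rwa [h2] at h1
  have hd2 : n * p ≤ 10 ^ (-26 : ℤ) * l := by
    have h1 := mul_le_mul_of_nonneg_left hp2 hn0.le
    have h2 : (n : ℝ) * (10 ^ (-26 : ℤ) * l / n) = 10 ^ (-26 : ℤ) * l := by field_simp
    rwa [h2] at h1
  obtain ⟨hD1, hD8, hDd, hDlog⟩ := asyL_D (D := DD n p) hl256 hd1 hd2 rfl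
  set D : ℕ := DD n p with hD
  set M : ℕ := n / (2 * D) with hM
  have hDpos : (0 : ℝ) < D := by linarith
  have hd0 : 0 < (n : ℝ) * p := by positivity
  have hMle : (M : ℝ) ≤ n / (2 * D) := by
    have h1 : ((n / (2 * D) : ℕ) : ℝ) ≤ (n : ℝ) / ((2 * D : ℕ) : ℝ) := Nat.cast_div_le
    push_cast at h1
    exact h1
  have hMge : (n : ℝ) / (4 * D) ≤ M := by
    have h1 : (n : ℝ) / (2 * D) < M + 1 := by
      rw [div_lt_iff₀ (by positivity)]
      have h2 : n < (M + 1) * (2 * D) := by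
        have hpos : 0 < 2 * D := by
          have : 0 < D := by exact_mod_cast hDpos
          omega
        have h3 := Nat.lt_mul_div_succ n hpos
        rw [hM, mul_comm]
        exact h3
      have h3 : (n : ℝ) < (((M + 1) * (2 * D) : ℕ) : ℝ) := by exact_mod_cast h2
      push_cast at h3
      exact h3
    have h2 : 1 ≤ (n : ℝ) / (4 * D) := by
      rw [le_div_iff₀ (by positivity)]
      linarith
    have h3 : (n : ℝ) / (2 * D) = n / (4 * D) + n / (4 * D) := by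
      field_simp
      norm_num
    linarith
  have hp1' : p ≤ 1 := by
    have h1 : (10 : ℝ) ^ (-26 : ℤ) * l / n ≤ 1 := by
      rw [div_le_one hn0]
      have h2 : (10 : ℝ) ^ (-26 : ℤ) ≤ 1 := zpow_le_one_of_nonpos₀ (by norm_num) (by norm_num)
      have h3 : (10 : ℝ) ^ (-26 : ℤ) * l ≤ 1 * l := mul_le_mul_of_nonneg_right h2 hl0.le
      linarith
    linarith
  have hpM : p * M ≤ 1 := by
    have h1 : p * M ≤ p * (n / (2 * D)) := mul_le_mul_of_nonneg_left hMle hp0.le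
    have h2 : p * (n / (2 * D)) ≤ 1 := by
      rw [← mul_div_assoc, div_le_one (by positivity)]
      have h3 : (n : ℝ) * p ≤ 10 ^ 22 * (n * p) := by
        have : (1 : ℝ) * (n * p) ≤ 10 ^ 22 * (n * p) := mul_le_mul_of_nonneg_right (by norm_num) hd0.le
        linarith
      linarith
    linarith
  have hq := asyL_q hp0.le hp1' hpM
  have hq1 : (n : ℝ) * p / (8 * D) ≤ 1 - (1 - p) ^ M := by
    refine le_trans ?_ hq
    have h1 : p * (n / (4 * D)) / 2 ≤ p * M / 2 := by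
      refine div_le_div_of_nonneg_right ?_ (by norm_num)
      exact mul_le_mul_of_nonneg_left hMge hp0.le
    have h2 : p * (n / (4 * D)) / 2 = (n : ℝ) * p / (8 * D) := by
      field_simp
      norm_num
    linarith
  have hq2 : 1 - (1 - p) ^ M ≤ 1 := by
    have : 0 ≤ (1 - p) ^ M := pow_nonneg (by linarith) _
    linarith
  have hy : 0 < (n : ℝ) * p / (8 * D) := by positivity
  have hw := asyL_pow hy hDlog
  have hw2 : Real.exp (-(l / 2)) ≤ (1 - (1 - p) ^ M) ^ D := hw.trans (pow_le_pow_left₀ hy.le hq1 D)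
  have hw3 : (1 - (1 - p) ^ M) ^ D ≤ 1 := pow_le_one₀ (hy.le.trans hq1) hq2
  refine (asyL_fin (m := n / 2) hw2 hw3).trans ?_
  -- the final comparison
  set t : ℝ := Real.exp (l / 4) with ht
  have ht4 : t ^ 4 = n := by
    rw [ht, ← Real.exp_nat_mul]
    push_cast
    rw [show (4 : ℝ) * (l / 4) = l by ring, hl, Real.exp_log hn0]
  have ht0 : 0 < t := Real.exp_pos _
  have htA : 12 * A + 3 ≤ t := by
    have h1 : (12 * A + 3) ^ 4 ≤ t ^ 4 := by
      rw [ht4]
      exact hn2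
    exact le_of_pow_le_pow_left₀ (by norm_num) ht0.le h1
  have hlt : l ≤ 4 * t := by
    have := Real.add_one_le_exp (l / 4)
    linarith
  have hm : (n : ℝ) / 3 ≤ ((n / 2 : ℕ) : ℝ) := by
    have h1 : n ≤ 2 * (n / 2) + 1 := by omega
    have h2 : (n : ℝ) ≤ 2 * ((n / 2 : ℕ) : ℝ) + 1 := by exact_mod_cast h1
    linarith
  have hexp : Real.exp (-(l / 2)) * ((n / 2 : ℕ) : ℝ) ≥ t ^ 2 / 3 := by
    have h1 : Real.exp (-(l / 2)) * t ^ 4 = t ^ 2 := by
      rw [ht, ← Real.exp_nat_mul, ← Real.exp_nat_mul, ← Real.exp_add]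
      congr 1
      push_cast
      ring
    have h2 : Real.exp (-(l / 2)) * ((n : ℝ) / 3) ≤ Real.exp (-(l / 2)) * ((n / 2 : ℕ) : ℝ) :=
      mul_le_mul_of_nonneg_left hm (Real.exp_pos _).le
    rw [← ht4] at h2
    have h3 : Real.exp (-(l / 2)) * (t ^ 4 / 3) = t ^ 2 / 3 := by
      rw [← h1]
      ring
    rw [h3] at h2
    exact h2
  have hgoal : Real.log 2 + A * l ≤ t ^ 2 / 3 := by
    have h1 := Real.log_two_lt_d9
    have h2 : A * l ≤ A * (4 * t) := mul_le_mul_of_nonneg_left hlt hA.le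
    have h3 : (12 * A + 3) * t ≤ t * t := mul_le_mul_of_nonneg_right htA ht0.le
    have h4 : 1 ≤ t := by linarith
    nlinarith
  have hrhs : (n : ℝ) ^ (-A) / 2 = Real.exp (-(A * l) - Real.log 2) := by
    rw [Real.exp_sub, Real.exp_log (by norm_num), Real.rpow_def_of_pos hn0]
    congr 2
    rw [hl]
    ring
  rw [hrhs]
  apply Real.exp_le_exp.2
  linarith

end Pool.Agent.H5.SRG
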