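import Pool.Agent.H5.SRG.Defs

/-!
[SRG AsyU] PROOF. `λ = log n`, `d = n p <= 10^(-26) λ`, `D = DD n p >= max(λ/(8 log λ), 10^22 d)`, `K = D / 10^20` (natural
division), `s = K/2`. `D -> ∞`, so for `n` large `1 <= K` and `s >= D/10^21 >= max(λ/(8 * 10^21 log λ), 10 d)`.
`C(n,s) p^s <= (n p)^s/s! <= (e d/s)^s <= (3/10)^s` (`Nat.choose_le_pow_div`, `Real.pow_div_factorial_le_exp` with `x = s`).
So the left side is `<= n (3/10)^s ((3/10)^s)^s <= n (3/10)^(s^2) = exp(λ - s^2 log(10/3)) <= n^(-A)/2`, as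
`s^2 >= λ^2/(64 * 10^42 (log λ)^2)` is larger than any multiple of `λ`.
-/

set_option autoImplicit false

namespace Pool.Agent.H5.SRG

theorem asyU (A : ℝ) (hA : 0 < A) : ∃ n0 : ℕ, ∀ n : ℕ, n0 ≤ n → ∀ p : ℝ,
    1 / (n * Real.log n) ≤ p → p ≤ 10 ^ (-26 : ℤ) * Real.log n / n →
    1 ≤ DD n p / 10 ^ 20 ∧
    (n : ℝ) * (n.choose (DD n p / 10 ^ 20 / 2)) * p ^ (DD n p / 10 ^ 20 / 2) *
      ((n.choose (DD n p / 10 ^ 20 / 2)) * p ^ (DD n p / 10 ^ 20 / 2)) ^ (DD n p / 10 ^ 20 / 2) ≤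
      (n : ℝ) ^ (-A) / 2 := by
  -- `n` large
  have e1 : ∀ᶠ l : ℝ in Filter.atTop, ‖(Real.log l) ^ 2‖ ≤ (1 / (64 * 10 ^ 42 * (A + 2))) * ‖l‖ :=
    (Real.isLittleO_pow_log_id_atTop (n := 2)).bound (by positivity)
  have e2 : ∀ᶠ l : ℝ in Filter.atTop, ‖(Real.log l) ^ 1‖ ≤ (1 / (24 * 10 ^ 20)) * ‖l‖ :=
    (Real.isLittleO_pow_log_id_atTop (n := 1)).bound (by positivity)
  have e3 : ∀ᶠ l : ℝ in Filter.atTop, 1 ≤ Real.log l := Real.tendsto_log_atTop.eventually_ge_atTop 1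
  have t0 : Filter.Tendsto (fun n : ℕ => Real.log (n : ℝ)) Filter.atTop Filter.atTop :=
    Real.tendsto_log_atTop.comp tendsto_natCast_atTop_atTop
  have e := (t0.eventually e1).and ((t0.eventually e2).and ((t0.eventually e3).and
    ((t0.eventually (Filter.eventually_ge_atTop 1)).and (Filter.eventually_ge_atTop 1))))
  obtain ⟨n0, hn0⟩ := Filter.eventually_atTop.1 e
  refine ⟨n0, fun n hn p hp1 hp2 => ?_⟩
  obtain ⟨g1, g2, g3, g4, g5⟩ := hn0 n hn
  have hn1 : (1 : ℝ) ≤ n := by exact_mod_cast g5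
  have hnpos : (0 : ℝ) < n := by linarith
  obtain ⟨l, hl⟩ : ∃ l : ℝ, l = Real.log n := ⟨_, rfl⟩
  rw [← hl] at g1 g2 g3 g4 hp1 hp2
  have hlpos : 0 < l := by linarith
  obtain ⟨m, hm⟩ : ∃ m : ℝ, m = Real.log l := ⟨_, rfl⟩
  rw [← hm] at g1 g2 g3
  have hmpos : 0 < m := by linarith
  rw [Real.norm_of_nonneg (by positivity), Real.norm_of_nonneg hlpos.le] at g1 g2
  have g1' : 64 * 10 ^ 42 * (A + 2) * m ^ 2 ≤ l := by
    rw [one_div, inv_mul_eq_div, le_div_iff₀ (by positivity)] at g1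
    linarith
  have g2' : 24 * 10 ^ 20 * m ≤ l := by
    rw [one_div, inv_mul_eq_div, le_div_iff₀ (by positivity), pow_one] at g2
    linarith
  have hp0 : 0 ≤ p := le_trans (by positivity) hp1
  -- the number `D`
  have hD1 : l / (8 * m) ≤ (DD n p : ℝ) := by
    unfold DD
    rw [← hl, ← hm]
    exact (le_max_left _ _).trans (Nat.le_ceil _)
  have hD2 : 10 ^ 22 * (n * p) ≤ (DD n p : ℝ) := by
    unfold DD
    exact (le_max_right _ _).trans (Nat.le_ceil _)
  have hD3 : (3 * 10 ^ 20 : ℝ) ≤ (DD n p : ℝ) := by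
    refine le_trans ?_ hD1
    rw [le_div_iff₀ (by positivity)]
    linarith
  have hD4 : 3 * 10 ^ 20 ≤ DD n p := by exact_mod_cast hD3
  generalize DD n p = D at *
  have hs0 : D ≤ 10 ^ 21 * (D / 10 ^ 20 / 2) := by omega
  refine ⟨by omega, ?_⟩
  generalize D / 10 ^ 20 / 2 = s at *
  have hs1 : (D : ℝ) ≤ 10 ^ 21 * s := by exact_mod_cast hs0
  have hd : n * p ≤ s / 10 := by linarith
  have hnp0 : 0 ≤ n * p := by positivity
  obtain ⟨x, hx⟩ : ∃ x : ℝ, x = (n.choose s : ℝ) * p ^ s := ⟨_, rfl⟩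
  have hx0 : 0 ≤ x := by
    rw [hx]
    positivity
  have hxe : x ≤ Real.exp (-s) := by
    have h1 : x ≤ (n * p) ^ s / (s.factorial : ℝ) := by
      rw [hx, mul_pow, mul_div_right_comm]
      exact mul_le_mul_of_nonneg_right (Nat.choose_le_pow_div s n) (by positivity)
    have h2 : (n * p) ^ s / (s.factorial : ℝ) ≤ (s / 10 : ℝ) ^ s / (s.factorial : ℝ) := by
      apply div_le_div_of_nonneg_right _ (by positivity)
      exact pow_le_pow_left₀ hnp0 hd s
    have h3 : (s / 10 : ℝ) ^ s / (s.factorial : ℝ) = ((s : ℝ) ^ s / (s.factorial : ℝ)) / 10 ^ s := by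
      rw [div_pow, div_div, div_div, mul_comm]
    have h4 : (s : ℝ) ^ s / (s.factorial : ℝ) ≤ Real.exp s := Real.pow_div_factorial_le_exp s (Nat.cast_nonneg s) s
    have h5 : Real.exp (2 * s) ≤ 10 ^ s := by
      have h6 : Real.exp 2 ≤ 10 := by
        have h7 : Real.exp 2 = Real.exp 1 * Real.exp 1 := by
          rw [← Real.exp_add]
          norm_num
        have h8 := Real.exp_one_lt_d9
        have h9 := Real.exp_pos 1
        rw [h7]
        nlinarith
      have h7 : Real.exp (2 * s) = Real.exp 2 ^ s := by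
        rw [← Real.exp_nat_mul, mul_comm]
      rw [h7]
      exact pow_le_pow_left₀ (Real.exp_pos 2).le h6 s
    calc x ≤ ((s : ℝ) ^ s / (s.factorial : ℝ)) / 10 ^ s := by
          rw [← h3]
          exact h1.trans h2
      _ ≤ Real.exp s / 10 ^ s := div_le_div_of_nonneg_right h4 (by positivity)
      _ ≤ Real.exp (-s) := by
          rw [div_le_iff₀ (by positivity)]
          calc Real.exp s = Real.exp (-s) * Real.exp (2 * s) := by
                rw [← Real.exp_add]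
                congr 1
                ring
            _ ≤ Real.exp (-s) * 10 ^ s := mul_le_mul_of_nonneg_left h5 (Real.exp_pos _).le
  have hx1 : x ≤ 1 := hxe.trans (by
    rw [Real.exp_le_one_iff]
    have := (Nat.cast_nonneg s : (0 : ℝ) ≤ s)
    linarith)
  have hxs : x ^ s ≤ Real.exp (-(s : ℝ) ^ 2) := by
    calc x ^ s ≤ Real.exp (-s) ^ s := pow_le_pow_left₀ hx0 hxe s
      _ = Real.exp (-(s : ℝ) ^ 2) := by
          rw [← Real.exp_nat_mul]
          congr 1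
          ring
  -- `s ^ 2` is large
  have hsl : (A + 2) * l ≤ (s : ℝ) ^ 2 := by
    have h1 : l ≤ (8 * 10 ^ 21 * m) * s := by
      have h2 : l / (8 * m) ≤ 10 ^ 21 * s := hD1.trans hs1
      rw [div_le_iff₀ (by positivity)] at h2
      linarith
    have h2 : l ^ 2 ≤ ((8 * 10 ^ 21 * m) * s) ^ 2 := pow_le_pow_left₀ hlpos.le h1 2
    have h3 : ((8 * 10 ^ 21 * m) * s) ^ 2 * (A + 2) = (64 * 10 ^ 42 * (A + 2) * m ^ 2) * (s : ℝ) ^ 2 := by ring
    have h4 : (64 * 10 ^ 42 * (A + 2) * m ^ 2) * (s : ℝ) ^ 2 ≤ l * (s : ℝ) ^ 2 :=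
      mul_le_mul_of_nonneg_right g1' (by positivity)
    have h5 : l ^ 2 * (A + 2) ≤ l * (s : ℝ) ^ 2 := by
      calc l ^ 2 * (A + 2) ≤ ((8 * 10 ^ 21 * m) * s) ^ 2 * (A + 2) :=
            mul_le_mul_of_nonneg_right h2 (by linarith)
        _ ≤ l * (s : ℝ) ^ 2 := by
            rw [h3]
            exact h4
    have h6 : l * ((A + 2) * l) ≤ l * (s : ℝ) ^ 2 := by
      calc l * ((A + 2) * l) = l ^ 2 * (A + 2) := by ring
        _ ≤ _ := h5
    exact le_of_mul_le_mul_left h6 hlpos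
  have hne : (n : ℝ) = Real.exp l := by rw [hl, Real.exp_log hnpos]
  have hnA : (n : ℝ) ^ (-A) = Real.exp (-A * l) := by
    rw [Real.rpow_def_of_pos hnpos, ← hl, mul_comm]
  have h2e : (2 : ℝ) ≤ Real.exp 1 := by
    have := Real.exp_one_gt_d9
    linarith
  calc (n : ℝ) * (n.choose s) * p ^ s * ((n.choose s) * p ^ s) ^ s = n * (x * x ^ s) := by
        rw [← hx]
        rw [mul_assoc (n : ℝ), ← hx, mul_assoc]
    _ ≤ n * (1 * Real.exp (-(s : ℝ) ^ 2)) := by
        apply mul_le_mul_of_nonneg_left _ hnpos.le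
        exact mul_le_mul hx1 hxs (by positivity) (by norm_num)
    _ = Real.exp (l - (s : ℝ) ^ 2) := by
        rw [one_mul, hne, ← Real.exp_add]
        congr 1
    _ ≤ (n : ℝ) ^ (-A) / 2 := by
        rw [hnA, le_div_iff₀ (by norm_num)]
        calc Real.exp (l - (s : ℝ) ^ 2) * 2 ≤ Real.exp (l - (s : ℝ) ^ 2) * Real.exp 1 :=
              mul_le_mul_of_nonneg_left h2e (Real.exp_pos _).le
          _ = Real.exp (l - (s : ℝ) ^ 2 + 1) := by rw [← Real.exp_add]
          _ ≤ Real.exp (-A * l) := by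
              apply Real.exp_le_exp.2
              nlinarith

end Pool.Agent.H5.SRG
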