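import Pool.Agent.H5.SRG.Defs

set_option autoImplicit false

namespace Pool.Agent.H5.SRG

open MeasureTheory

theorem basic_prob_coin (p : ℝ) (hp0 : 0 ≤ p) (hp1 : p ≤ 1) : IsProbabilityMeasure (coin p) := by
  refine ⟨?_⟩
  unfold coin
  rw [Measure.add_apply, Measure.smul_apply, Measure.smul_apply, measure_univ, measure_univ,
    smul_eq_mul, smul_eq_mul, mul_one, mul_one, ← ENNReal.ofReal_add hp0 (by linarith)]
  rw [show p + (1 - p) = 1 by ring, ENNReal.ofReal_one]

theorem prob_coins (n : ℕ) (p : ℝ) (hp0 : 0 ≤ p) (hp1 : p ≤ 1) :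
    IsProbabilityMeasure (coins n p) := by
  haveI := basic_prob_coin p hp0 hp1
  unfold coins
  infer_instance

theorem basic_coin_tt (p : ℝ) (hp0 : 0 ≤ p) : coin p {true} = ENNReal.ofReal p := by
  unfold coin
  rw [Measure.add_apply, Measure.smul_apply, Measure.smul_apply,
    Measure.dirac_apply' _ (MeasurableSet.singleton _), Measure.dirac_apply' _ (MeasurableSet.singleton _)]
  simp

theorem basic_coin_ff (p : ℝ) (hp1 : p ≤ 1) : coin p {false} = ENNReal.ofReal (1 - p) := by
  unfold coin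
  rw [Measure.add_apply, Measure.smul_apply, Measure.smul_apply,
    Measure.dirac_apply' _ (MeasurableSet.singleton _), Measure.dirac_apply' _ (MeasurableSet.singleton _)]
  simp

theorem cyl_aux (n : ℕ) (p : ℝ) (hp0 : 0 ≤ p) (hp1 : p ≤ 1) (F : Finset (Sym2 (Fin n))) (b : Bool)
    (q : ℝ) (hq0 : 0 ≤ q) (hq : coin p {b} = ENNReal.ofReal q) :
    (coins n p {ω | ∀ e ∈ F, ω e = b}).toReal = q ^ F.card := by
  classical
  haveI := basic_prob_coin p hp0 hp1
  have h1 : {ω : Sym2 (Fin n) → Bool | ∀ e ∈ F, ω e = b} =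
      Set.pi Set.univ (fun e => if e ∈ F then ({b} : Set Bool) else Set.univ) := by
    ext ω
    simp only [Set.mem_setOf_eq, Set.mem_pi, Set.mem_univ, true_implies]
    constructor
    · intro h e
      by_cases he : e ∈ F
      · rw [if_pos he]
        exact h e he
      · rw [if_neg he]
        exact Set.mem_univ _
    · intro h e he
      have := h e
      rw [if_pos he] at this
      exact this
  rw [h1]
  unfold coins
  rw [Measure.pi_pi]
  have h2 : ∀ e : Sym2 (Fin n), coin p (if e ∈ F then ({b} : Set Bool) else Set.univ) =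
      if e ∈ F then ENNReal.ofReal q else 1 := by
    intro e
    by_cases he : e ∈ F
    · rw [if_pos he, if_pos he, hq]
    · rw [if_neg he, if_neg he, measure_univ]
  rw [Finset.prod_congr rfl fun e _ => h2 e, Finset.prod_ite, Finset.prod_const_one, mul_one,
    Finset.prod_const, ← ENNReal.ofReal_pow hq0, ENNReal.toReal_ofReal (by positivity)]
  congr 2
  ext e
  simp

/-- all coins of `F` show `b` -/
theorem cyl (n : ℕ) (p : ℝ) (hp0 : 0 ≤ p) (hp1 : p ≤ 1) (F : Finset (Sym2 (Fin n))) :
    (coins n p {ω | ∀ e ∈ F, ω e = true}).toReal = p ^ F.card ∧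
    (coins n p {ω | ∀ e ∈ F, ω e = false}).toReal = (1 - p) ^ F.card :=
  ⟨cyl_aux n p hp0 hp1 F true p hp0 (basic_coin_tt p hp0),
    cyl_aux n p hp0 hp1 F false (1 - p) (by linarith) (basic_coin_ff p hp1)⟩

end Pool.Agent.H5.SRG
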