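import Mathlib

/-!
# SparseRandomGraphs (MP_5cda12_co, helper5): definitions

`coins n p`: independent coins, heads with probability `p`, one for each unordered pair of vertices.
`graph ω`: the graph whose edges are the pairs with heads, so `graph` has the law `G(n,p)`.
-/

set_option autoImplicit false

namespace Pool.Agent.H5.SRG

open MeasureTheory

/-- The law of a coin which shows heads (`true`) with probability `p`. -/
noncomputable def coin (p : ℝ) : Measure Bool :=
  ENNReal.ofReal p • Measure.dirac true + ENNReal.ofReal (1 - p) • Measure.dirac false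

/-- Independent coins, one for each unordered pair of elements of `Fin n`. -/
noncomputable def coins (n : ℕ) (p : ℝ) : Measure (Sym2 (Fin n) → Bool) :=
  Measure.pi fun _ => coin p

/-- The graph whose edges are the pairs of different vertices whose coin shows heads. -/
def graph {n : ℕ} (ω : Sym2 (Fin n) → Bool) : SimpleGraph (Fin n) where
  Adj u v := u ≠ v ∧ ω s(u, v) = true
  symm := ⟨fun u v h => ⟨h.1.symm, by rw [Sym2.eq_swap]; exact h.2⟩⟩
  loopless := ⟨fun u h => h.1 rfl⟩

instance {n : ℕ} (ω : Sym2 (Fin n) → Bool) : DecidableRel (graph ω).Adj := fun u v =>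
  inferInstanceAs (Decidable (u ≠ v ∧ ω s(u, v) = true))

/-- `G` has an acyclic proper edge-colouring with `N` colours: adjacent edges have different colours
and the edges of every cycle have at least three colours. -/
def Acyclic {V : Type} (G : SimpleGraph V) (N : ℕ) : Prop :=
  ∃ c : V → V → Fin N,
    (∀ u v : V, c u v = c v u) ∧
    (∀ u v w : V, G.Adj u v → G.Adj u w → v ≠ w → c u v ≠ c u w) ∧
    (∀ (u : V) (p : G.Walk u u), p.IsCycle →
        3 ≤ (p.darts.map (fun d => c d.toProd.1 d.toProd.2)).toFinset.card)

open Classical in
/-- `a'(G) = Δ(G)`: there is an acyclic proper edge-colouring with `Δ(G)` colours. -/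
def Sharp {n : ℕ} (G : SimpleGraph (Fin n)) : Prop :=
  Acyclic G G.maxDegree

/-- The lower bound for the maximum degree. -/
noncomputable def DD (n : ℕ) (p : ℝ) : ℕ :=
  ⌈max (Real.log n / (8 * Real.log (Real.log n))) (10 ^ 22 * (n * p))⌉₊

end Pool.Agent.H5.SRG
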