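import Pool.Agent.H5.SRG.Defs
import Pool.Agent.Results.MP_5cda12_co.LayeredGraphs

set_option autoImplicit false

namespace Pool.Agent.H5.SRG

theorem det {n : ℕ} (G : SimpleGraph (Fin n)) [DecidableRel G.Adj] (s k : ℕ) (hs : s ≤ k + 1)
    (hU : ¬ ∃ v : Fin n, ∃ S : Finset (Fin n), S.card = s ∧ ∀ u ∈ S, G.Adj v u ∧ k < G.degree u)
    (hD : 10 ^ 20 * (k + 1) ≤ G.maxDegree) : Acyclic G G.maxDegree := by
  classical
  have h := Pool.Agent.Results.MP_5cda12_co.LayeredGraphs.result (Fin n) G
    (fun v => if k < G.degree v then 1 else 0) k 1 G.maxDegree le_rfl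
    (fun v => by split_ifs <;> omega) (fun v => by
      by_contra hcon
      push Not at hcon
      by_cases hv : k < G.degree v
      · -- high vertex: its high neighbours
        have hcard : s ≤ (Finset.univ.filter (fun u => G.Adj v u ∧
            (if k < G.degree v then 1 else 0) ≤ (if k < G.degree u then 1 else 0))).card := by
          omega
        obtain ⟨S, hS, hSc⟩ := Finset.exists_subset_card_eq hcard
        refine hU ⟨v, S, hSc, fun u hu => ?_⟩
        obtain ⟨-, h1, h2⟩ := Finset.mem_filter.mp (hS hu)
        refine ⟨h1, ?_⟩
        rw [if_pos hv] at h2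
        by_contra h3
        rw [if_neg h3] at h2
        omega
      · -- low vertex
        have h1 : (Finset.univ.filter (fun u => G.Adj v u ∧
            (if k < G.degree v then 1 else 0) ≤ (if k < G.degree u then 1 else 0))).card ≤
            G.degree v := by
          rw [← G.card_neighborFinset_eq_degree]
          refine Finset.card_le_card fun u hu => ?_
          rw [SimpleGraph.mem_neighborFinset]
          exact (Finset.mem_filter.mp hu).2.1
        omega)
    le_rfl (by rw [one_pow, mul_one]; exact hD)
  exact h

end Pool.Agent.H5.SRG
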