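import Pool.Agent.H5.SRG.Basic

/-!
[SRG Gnm] From `G(n,p)` to graphs with `m` edges. PROOF. `N = C(n,2)`, `p = m/N`. For a graph `G` on `Fin n` with `m` edges
the event `graph ω = G` prescribes the coins of the `N` non-diagonal pairs, so it has probability `p^m (1-p)^(N-m)`
(`Measure.pi` of singletons / `Set.univ` on the diagonal). These events are disjoint, so
`#{G : m edges, P G} p^m (1-p)^(N-m) <= P_p(P (graph ω))`. And `C(N,m) p^m (1-p)^(N-m) >= 1/(N+1)` for `p = m/N`: the terms
`C(N,j) p^j (1-p)^(N-j)`, `j = 0..N`, have sum `1` and the largest is the one with `j = m` (ratio of consecutive terms).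
-/

set_option autoImplicit false

namespace Pool.Agent.H5.SRG

open MeasureTheory

/-- the terms of the binomial distribution with mean `m` are largest at `m`. -/
theorem term_le (N m : ℕ) (hm : m < N) (p : ℝ) (hp0 : 0 ≤ p) (hp1 : p < 1) (hp : (N : ℝ) * p = m)
    (j : ℕ) (hj : j ≤ N) :
    (N.choose j : ℝ) * p ^ j * (1 - p) ^ (N - j) ≤ (N.choose m : ℝ) * p ^ m * (1 - p) ^ (N - m) := by
  set t : ℕ → ℝ := fun j => (N.choose j : ℝ) * p ^ j * (1 - p) ^ (N - j) with ht
  have hq : 0 < 1 - p := by linarith
  have ht0 : ∀ j, 0 ≤ t j := fun j => by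
    simp only [ht]
    positivity
  have hrec : ∀ j, j < N → t (j + 1) * ((j + 1) * (1 - p)) = t j * ((N - j) * p) := by
    intro j hj
    have h1 : (N.choose (j + 1) : ℝ) * (j + 1) = N.choose j * (N - j) := by
      have := Nat.choose_succ_right_eq N j
      have h2 : ((N - j : ℕ) : ℝ) = (N : ℝ) - j := by
        rw [Nat.cast_sub hj.le]
      rw [← h2]
      exact_mod_cast this
    have h3 : N - j = N - (j + 1) + 1 := by omega
    simp only [ht]
    rw [h3, pow_succ (1 - p), pow_succ p]
    linear_combination (p ^ j * p * ((1 - p) ^ (N - (j + 1)) * (1 - p))) * h1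
  have hup : ∀ k, k ≤ m → t (m - k) ≤ t m := by
    intro k
    induction k with
    | zero => intro _; simp
    | succ k ih =>
      intro hk
      refine le_trans ?_ (ih (by omega))
      have h4 : m - k = m - (k + 1) + 1 := by omega
      rw [h4]
      set i := m - (k + 1) with hi
      have hiN : i < N := by omega
      have h5 := hrec i hiN
      have h6 : ((i : ℝ) + 1) ≤ m := by
        have : i + 1 ≤ m := by omega
        exact_mod_cast this
      have h7 : ((i : ℝ) + 1) * (1 - p) ≤ (N - i) * p := by nlinarith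
      have h8 : 0 < ((i : ℝ) + 1) * (1 - p) := by positivity
      have h9 : t i * (((i : ℝ) + 1) * (1 - p)) ≤ t (i + 1) * (((i : ℝ) + 1) * (1 - p)) := by
        rw [h5]
        exact mul_le_mul_of_nonneg_left h7 (ht0 i)
      exact le_of_mul_le_mul_right h9 h8
  have hdown : ∀ k, m + k ≤ N → t (m + k) ≤ t m := by
    intro k
    induction k with
    | zero => intro _; simp
    | succ k ih =>
      intro hk
      refine le_trans ?_ (ih (by omega))
      have h5 := hrec (m + k) (by omega)
      push_cast at h5
      have h7 : ((N : ℝ) - (m + k)) * p ≤ ((m : ℝ) + k + 1) * (1 - p) := by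
        have : (0 : ℝ) ≤ k := Nat.cast_nonneg k
        nlinarith
      have h8 : 0 < ((m : ℝ) + k + 1) * (1 - p) := by positivity
      have h9 : t (m + k + 1) * (((m : ℝ) + k + 1) * (1 - p)) ≤
          t (m + k) * (((m : ℝ) + k + 1) * (1 - p)) := by
        rw [h5]
        exact mul_le_mul_of_nonneg_left h7 (ht0 _)
      exact le_of_mul_le_mul_right h9 h8
  rcases le_total j m with h | h
  · have := hup (m - j) (by omega)
    have h10 : m - (m - j) = j := by omega
    rw [h10] at this
    exact this
  · have := hdown (j - m) (by omega)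
    have h10 : m + (j - m) = j := by omega
    rw [h10] at this
    exact this

theorem mode (N m : ℕ) (hm : m ≤ N) (hN : 1 ≤ N) :
    1 ≤ ((N : ℝ) + 1) * ((N.choose m : ℝ) * ((m : ℝ) / N) ^ m * (1 - (m : ℝ) / N) ^ (N - m)) := by
  have hN0 : (0 : ℝ) < N := by exact_mod_cast hN
  rcases hm.lt_or_eq with hlt | heq
  · set p : ℝ := (m : ℝ) / N with hp
    have hp0 : 0 ≤ p := by positivity
    have hp1 : p < 1 := by
      rw [hp, div_lt_one hN0]
      exact_mod_cast hlt
    have hpm : (N : ℝ) * p = m := by rw [hp]; field_simp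
    have hsum : ∑ j ∈ Finset.range (N + 1), p ^ j * (1 - p) ^ (N - j) * (N.choose j : ℝ) = 1 := by
      rw [← add_pow]
      simp
    calc (1 : ℝ) = ∑ j ∈ Finset.range (N + 1), p ^ j * (1 - p) ^ (N - j) * (N.choose j : ℝ) := hsum.symm
      _ ≤ ∑ j ∈ Finset.range (N + 1), (N.choose m : ℝ) * p ^ m * (1 - p) ^ (N - m) := by
          refine Finset.sum_le_sum fun j hj => ?_
          have hj' : j ≤ N := by
            have := Finset.mem_range.1 hj
            omega
          have := term_le N m hlt p hp0 hp1 hpm j hj'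
          calc p ^ j * (1 - p) ^ (N - j) * (N.choose j : ℝ)
              = (N.choose j : ℝ) * p ^ j * (1 - p) ^ (N - j) := by ring
            _ ≤ _ := this
      _ = _ := by
          rw [Finset.sum_const, Finset.card_range, nsmul_eq_mul]
          push_cast
          ring
  · subst heq
    have h1 : (m : ℝ) / m = 1 := div_self (ne_of_gt hN0)
    rw [h1]
    simp

theorem coin_prob (p : ℝ) (hp0 : 0 ≤ p) (hp1 : p ≤ 1) : IsProbabilityMeasure (coin p) := by
  constructor
  simp only [coin, Measure.coe_add, Measure.coe_smul, Pi.add_apply, Pi.smul_apply, measure_univ,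
    smul_eq_mul, mul_one]
  rw [← ENNReal.ofReal_add hp0 (by linarith)]
  simp

theorem coin_true (p : ℝ) : coin p {true} = ENNReal.ofReal p := by
  simp [coin]

theorem coin_false (p : ℝ) : coin p {false} = ENNReal.ofReal (1 - p) := by
  simp [coin]

theorem prob_graph (n : ℕ) (p : ℝ) (hp0 : 0 ≤ p) (hp1 : p ≤ 1) (G : SimpleGraph (Fin n)) (m : ℕ)
    (hm : G.edgeSet.ncard = m) :
    (coins n p {ω | graph ω = G}).toReal = p ^ m * (1 - p) ^ (n.choose 2 - m) := by
  classical
  have := coin_prob p hp0 hp1
  have hset : {ω : Sym2 (Fin n) → Bool | graph ω = G} = Set.univ.pi (fun e =>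
      if e.IsDiag then (Set.univ : Set Bool) else if e ∈ G.edgeSet then {true} else {false}) := by
    ext ω
    simp only [Set.mem_ofPred_eq, Set.mem_univ_pi]
    constructor
    · rintro rfl e
      induction e using Sym2.ind with
      | _ u v =>
        by_cases huv : u = v
        · simp [huv]
        · by_cases h : ω s(u, v) = true
          · have hadj : (graph ω).Adj u v := ⟨huv, h⟩
            simp [huv, SimpleGraph.mem_edgeSet, hadj, h]
          · have hadj : ¬ (graph ω).Adj u v := fun h' => h h'.2
            simp only [Bool.not_eq_true] at h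
            simp [huv, SimpleGraph.mem_edgeSet, hadj, h]
    · intro h
      ext u v
      by_cases huv : u = v
      · subst huv
        simp
      · have h1 := h s(u, v)
        simp only [Sym2.mk_isDiag_iff, huv, if_false, SimpleGraph.mem_edgeSet] at h1
        constructor
        · intro h2
          by_contra h3
          rw [if_neg h3] at h1
          rw [Set.mem_singleton_iff] at h1
          have := h2.2
          rw [h1] at this
          exact absurd this (by simp)
        · intro h2
          rw [if_pos h2, Set.mem_singleton_iff] at h1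
          exact ⟨huv, h1⟩
  have hval : ∀ e : Sym2 (Fin n), (coin p (if e.IsDiag then (Set.univ : Set Bool) else
      if e ∈ G.edgeSet then {true} else {false})).toReal =
      if e.IsDiag then 1 else if e ∈ G.edgeSet then p else 1 - p := by
    intro e
    split_ifs with h1 h2
    · rw [measure_univ, ENNReal.toReal_one]
    · rw [coin_true, ENNReal.toReal_ofReal hp0]
    · rw [coin_false, ENNReal.toReal_ofReal (by linarith)]
  rw [hset, coins, Measure.pi_pi, ENNReal.toReal_prod]
  rw [Finset.prod_congr rfl fun e _ => hval e]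
  rw [Finset.prod_ite, Finset.prod_const_one, one_mul, Finset.prod_ite, Finset.prod_const,
    Finset.prod_const]
  have hcard1 : (Finset.filter (fun e => e ∈ G.edgeSet)
      (Finset.filter (fun e : Sym2 (Fin n) => ¬ e.IsDiag) Finset.univ)).card = m := by
    rw [← hm, ← Set.ncard_coe_finset]
    congr 1
    ext e
    simp only [Finset.coe_filter, Finset.mem_filter, Finset.mem_univ, true_and, Set.mem_ofPred_eq]
    constructor
    · exact fun h => h.2
    · exact fun h => ⟨G.not_isDiag_of_mem_edgeSet h, h⟩
  have hcard2 : (Finset.filter (fun e : Sym2 (Fin n) => ¬ e.IsDiag) Finset.univ).card = n.choose 2 := by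
    have h1 := Sym2.card_subtype_not_diag (α := Fin n)
    rw [Fintype.card_subtype, Fintype.card_fin] at h1
    exact h1
  have hcard3 := Finset.card_filter_add_card_filter_not
    (s := Finset.filter (fun e : Sym2 (Fin n) => ¬ e.IsDiag) Finset.univ) (fun e => e ∈ G.edgeSet)
  rw [hcard1, hcard2] at hcard3
  rw [hcard1]
  congr 2
  omega

theorem single (n : ℕ) (p : ℝ) (hp0 : 0 ≤ p) (hp1 : p ≤ 1) (P : SimpleGraph (Fin n) → Prop) (m : ℕ) :
    (Set.ncard {G : SimpleGraph (Fin n) | G.edgeSet.ncard = m ∧ P G} : ℝ) *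
      (p ^ m * (1 - p) ^ (n.choose 2 - m)) ≤ (coins n p {ω | P (graph ω)}).toReal := by
  classical
  have := coin_prob p hp0 hp1
  have hprob : IsProbabilityMeasure (coins n p) := by
    unfold coins
    infer_instance
  set A : Finset (SimpleGraph (Fin n)) :=
    Finset.univ.filter fun G => G.edgeSet.ncard = m ∧ P G with hA
  have hAc : (Set.ncard {G : SimpleGraph (Fin n) | G.edgeSet.ncard = m ∧ P G}) = A.card := by
    rw [← Set.ncard_coe_finset]
    congr 1
    ext G
    simp [hA]
  rw [hAc]
  have hmeas : ∀ s : Set (Sym2 (Fin n) → Bool), MeasurableSet s := fun s =>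
    (Set.toFinite s).measurableSet
  have h1 : coins n p (⋃ G ∈ A, {ω | graph ω = G}) = ∑ G ∈ A, coins n p {ω | graph ω = G} := by
    refine measure_biUnion_finset ?_ fun G _ => hmeas _
    intro G _ G' _ hne
    rw [Function.onFun, Set.disjoint_left]
    intro ω h h'
    exact hne (h.symm.trans h')
  have h2 : (⋃ G ∈ A, {ω : Sym2 (Fin n) → Bool | graph ω = G}) ⊆ {ω | P (graph ω)} := by
    intro ω hω
    simp only [Set.mem_iUnion, Set.mem_ofPred_eq] at hω
    obtain ⟨G, hG, rfl⟩ := hω
    exact (Finset.mem_filter.1 hG).2.2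
  have h3 : (∑ G ∈ A, coins n p {ω | graph ω = G}).toReal =
      A.card * (p ^ m * (1 - p) ^ (n.choose 2 - m)) := by
    rw [ENNReal.toReal_sum fun G _ => measure_ne_top _ _]
    rw [Finset.sum_congr rfl fun G hG =>
      prob_graph n p hp0 hp1 G m (Finset.mem_filter.1 hG).2.1]
    rw [Finset.sum_const, nsmul_eq_mul]
  rw [← h3, ← h1]
  exact ENNReal.toReal_mono (measure_ne_top _ _) (measure_mono h2)

theorem gnm (n m : ℕ) (hm : m ≤ n.choose 2) (hn : 1 ≤ n.choose 2) (P : SimpleGraph (Fin n) → Prop) :
    (Set.ncard {G : SimpleGraph (Fin n) | G.edgeSet.ncard = m ∧ P G} : ℝ) ≤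
      ((n.choose 2 : ℝ) + 1) * (coins n ((m : ℝ) / n.choose 2) {ω | P (graph ω)}).toReal *
        ((n.choose 2).choose m) := by
  set N := n.choose 2 with hN
  have hN0 : (0 : ℝ) < N := by exact_mod_cast hn
  have hp0 : (0 : ℝ) ≤ (m : ℝ) / N := by positivity
  have hp1 : (m : ℝ) / N ≤ 1 := by
    rw [div_le_one hN0]
    exact_mod_cast hm
  have h1 := mode N m hm hn
  have h2 := single n ((m : ℝ) / N) hp0 hp1 P m
  rw [← hN] at h2
  set A : ℝ := (Set.ncard {G : SimpleGraph (Fin n) | G.edgeSet.ncard = m ∧ P G} : ℝ) with hA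
  have hA0 : 0 ≤ A := Nat.cast_nonneg _
  set q : ℝ := ((m : ℝ) / N) ^ m * (1 - (m : ℝ) / N) ^ (N - m) with hq
  calc A = A * 1 := (mul_one A).symm
    _ ≤ A * (((N : ℝ) + 1) * ((N.choose m : ℝ) * ((m : ℝ) / N) ^ m * (1 - (m : ℝ) / N) ^ (N - m))) :=
        mul_le_mul_of_nonneg_left h1 hA0
    _ = ((N : ℝ) + 1) * (A * q) * (N.choose m) := by rw [hq]; ring
    _ ≤ _ := by
        refine mul_le_mul_of_nonneg_right ?_ (Nat.cast_nonneg _)
        exact mul_le_mul_of_nonneg_left h2 (by positivity)

end Pool.Agent.H5.SRG
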