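import Pool.Agent.H5.SRG.Basic

/-!
[SRG Lower] PROOF. Take `h` vertices `a` and, among the others, `D` disjoint blocks `B_i` of `M` vertices
(`a = 0..h-1`, `B_i = [h + i M, h + (i+1) M)`). The cells `C(a,i) = {s(a,b) : b in B_i}` are disjoint sets of `M` pairs. If
the maximum degree is `< D`, every `a` has some `i` with all coins of `C(a,i)` false. By independence (the coins of
different cells; `ProbabilityTheory.iIndepFun_pi`, `iIndepFun.finsets`, or `Measure.pi_pi` after regrouping) this has
probability `∏_a (1 - ∏_i (1 - (1-p)^M))`.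
-/

set_option autoImplicit false

namespace Pool.Agent.H5.SRG

open MeasureTheory

private lemma prob_coin {p : ℝ} (hp0 : 0 ≤ p) (hp1 : p ≤ 1) : IsProbabilityMeasure (coin p) := by
  constructor
  unfold coin
  rw [Measure.add_apply, Measure.smul_apply, Measure.smul_apply, measure_univ, measure_univ,
    smul_eq_mul, smul_eq_mul, mul_one, mul_one, ← ENNReal.ofReal_add hp0 (by linarith)]
  rw [show p + (1 - p) = 1 by ring, ENNReal.ofReal_one]

/-- the event `A` depends only on the coins in `S` -/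
private def Dep {n : ℕ} (S : Finset (Sym2 (Fin n))) (A : Set (Sym2 (Fin n) → Bool)) : Prop :=
  ∀ ω ω' : Sym2 (Fin n) → Bool, (∀ e ∈ S, ω e = ω' e) → ω ∈ A → ω' ∈ A

private lemma dep_eq {n : ℕ} {S : Finset (Sym2 (Fin n))} {A : Set (Sym2 (Fin n) → Bool)}
    (h : Dep S A) : A = (fun (ω : Sym2 (Fin n) → Bool) (e : S) => ω e) ⁻¹'
      {x | ∃ ω ∈ A, ∀ e : S, ω e = x e} := by
  ext ω
  constructor
  · intro hω
    exact ⟨ω, hω, fun e => rfl⟩
  · rintro ⟨ω', hω', he⟩
    exact h ω' ω (fun e hes => he ⟨e, hes⟩) hω'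

private lemma two_indep {n : ℕ} {p : ℝ} (hp0 : 0 ≤ p) (hp1 : p ≤ 1)
    {S T : Finset (Sym2 (Fin n))} (hST : Disjoint S T) {A B : Set (Sym2 (Fin n) → Bool)}
    (hA : Dep S A) (hB : Dep T B) :
    (coins n p).real (A ∩ B) = (coins n p).real A * (coins n p).real B := by
  have := prob_coin hp0 hp1
  have hind : ProbabilityTheory.iIndepFun
      (fun (e : Sym2 (Fin n)) (ω : Sym2 (Fin n) → Bool) => ω e) (coins n p) :=
    ProbabilityTheory.iIndepFun_pi (X := fun _ => id) (fun _ => aemeasurable_id)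
  have h2 := hind.indepFun_finset S T hST (fun e => measurable_pi_apply e)
  have h3 : (coins n p) (A ∩ B) = (coins n p) A * (coins n p) B := by
    rw [dep_eq hA, dep_eq hB]
    exact h2.measure_inter_preimage_eq_mul _ _ (Set.toFinite _).measurableSet
      (Set.toFinite _).measurableSet
  rw [measureReal_def, measureReal_def, measureReal_def, h3, ENNReal.toReal_mul]

private lemma prod_indep {n : ℕ} {p : ℝ} (hp0 : 0 ≤ p) (hp1 : p ≤ 1) {ι : Type} [DecidableEq ι]
    (S : ι → Finset (Sym2 (Fin n))) (A : ι → Set (Sym2 (Fin n) → Bool))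
    (hA : ∀ j, Dep (S j) (A j)) (hd : ∀ i j, i ≠ j → Disjoint (S i) (S j)) (J : Finset ι) :
    (coins n p).real (⋂ j ∈ J, A j) = ∏ j ∈ J, (coins n p).real (A j) := by
  have := prob_coins n p hp0 hp1
  induction J using Finset.induction_on with
  | empty => simp
  | insert a J ha ih =>
    rw [Finset.set_biInter_insert, Finset.prod_insert ha, ← ih]
    refine two_indep hp0 hp1 (S := S a) (T := J.biUnion S) ?_ (hA a) ?_
    · rw [Finset.disjoint_biUnion_right]
      intro j hj
      exact hd a j (fun h => ha (h ▸ hj))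
    · intro ω ω' h hω
      rw [Set.mem_iInter₂] at hω ⊢
      intro j hj
      exact hA j ω ω' (fun e he => h e (Finset.mem_biUnion.mpr ⟨j, hj, he⟩)) (hω j hj)

theorem lower (n h D M : ℕ) (hn : h + D * M ≤ n) (p : ℝ) (hp0 : 0 ≤ p) (hp1 : p ≤ 1) :
    (coins n p {ω | (graph ω).maxDegree < D}).toReal ≤ (1 - (1 - (1 - p) ^ M) ^ D) ^ h := by
  have := prob_coins n p hp0 hp1
  let vA : Fin h → Fin n := fun a => ⟨a, by have := a.2; omega⟩
  let vB : Fin D × Fin M → Fin n := fun x =>
    ⟨h + (finProdFinEquiv x : ℕ), by have := (finProdFinEquiv x).2; omega⟩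
  have hvB : Function.Injective vB := by
    intro x y hxy
    have h1 : h + (finProdFinEquiv x : ℕ) = h + (finProdFinEquiv y : ℕ) :=
      congrArg Fin.val hxy
    exact finProdFinEquiv.injective (Fin.ext (by omega))
  have hvAB : ∀ a x, vA a ≠ vB x := by
    intro a x hax
    have h1 : (a : ℕ) = h + (finProdFinEquiv x : ℕ) := congrArg Fin.val hax
    have h2 := a.2
    omega
  let pr : Fin h → Fin D × Fin M → Sym2 (Fin n) := fun a x => s(vA a, vB x)
  have hpr : ∀ a x a' x', pr a x = pr a' x' → a = a' ∧ x = x' := by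
    intro a x a' x' he
    have he' : s(vA a, vB x) = s(vA a', vB x') := he
    rw [Sym2.eq_iff] at he'
    rcases he' with ⟨h1, h2⟩ | ⟨h1, h2⟩
    · refine ⟨Fin.ext ?_, hvB h2⟩
      have h3 : ((vA a : Fin n) : ℕ) = ((vA a' : Fin n) : ℕ) := congrArg Fin.val h1
      exact h3
    · exact absurd h1 (hvAB a x')
  let E : Fin h → Fin D → Set (Sym2 (Fin n) → Bool) := fun a i =>
    {ω | ∀ k : Fin M, ω (pr a (i, k)) = false}
  let C : Fin h → Fin D → Finset (Sym2 (Fin n)) := fun a i =>
    Finset.univ.image (fun k : Fin M => pr a (i, k))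
  have hC : ∀ a i, (C a i).card = M := by
    intro a i
    have : Function.Injective (fun k : Fin M => pr a (i, k)) := by
      intro k k' hk
      exact congrArg Prod.snd (hpr _ _ _ _ hk).2
    show (Finset.univ.image (fun k : Fin M => pr a (i, k))).card = M
    rw [Finset.card_image_of_injective _ this, Finset.card_univ, Fintype.card_fin]
  have hE : ∀ a i, (coins n p).real (E a i) = (1 - p) ^ M := by
    intro a i
    have h1 := (cyl n p hp0 hp1 (C a i)).2
    rw [hC] at h1
    rw [← h1, measureReal_def]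
    congr 2
    ext ω
    constructor
    · intro hω e he
      obtain ⟨k, -, rfl⟩ := Finset.mem_image.mp he
      exact hω k
    · intro hω k
      exact hω _ (Finset.mem_image.mpr ⟨k, Finset.mem_univ _, rfl⟩)
  let N : Fin h → Set (Sym2 (Fin n) → Bool) := fun a => ⋂ i ∈ (Finset.univ : Finset (Fin D)), (E a i)ᶜ
  have hDepE : ∀ a i, Dep (C a i) (E a i)ᶜ := by
    intro a i ω ω' hω h1 h2
    apply h1
    intro k
    rw [hω _ (Finset.mem_image.mpr ⟨k, Finset.mem_univ _, rfl⟩)]
    exact h2 k
  have hN : ∀ a, (coins n p).real (N a) = (1 - (1 - p) ^ M) ^ D := by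
    intro a
    show (coins n p).real (⋂ i ∈ (Finset.univ : Finset (Fin D)), (E a i)ᶜ) = _
    rw [prod_indep hp0 hp1 (C a) (fun i => (E a i)ᶜ) (hDepE a) ?_ Finset.univ]
    · rw [Finset.prod_congr rfl (fun i _ => by
        rw [probReal_compl_eq_one_sub (Set.toFinite _).measurableSet, hE]),
        Finset.prod_const, Finset.card_univ, Fintype.card_fin]
    · intro i j hij
      rw [Finset.disjoint_left]
      intro e he he'
      obtain ⟨k, -, hk⟩ := Finset.mem_image.mp he
      obtain ⟨k', -, hk'⟩ := Finset.mem_image.mp he'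
      exact hij (congrArg Prod.fst (hpr _ _ _ _ (hk.trans hk'.symm)).2)
  let R : Fin h → Finset (Sym2 (Fin n)) := fun a =>
    Finset.univ.image (fun x : Fin D × Fin M => pr a x)
  have hDepN : ∀ a, Dep (R a) (N a)ᶜ := by
    intro a ω ω' hω h1 h2
    apply h1
    have h2' : ω' ∈ ⋂ i ∈ (Finset.univ : Finset (Fin D)), (E a i)ᶜ := h2
    show ω ∈ ⋂ i ∈ (Finset.univ : Finset (Fin D)), (E a i)ᶜ
    rw [Set.mem_iInter₂] at h2' ⊢
    intro i hi h3
    apply h2' i hi
    intro k
    rw [← hω _ (Finset.mem_image.mpr ⟨(i, k), Finset.mem_univ _, rfl⟩)]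
    exact h3 k
  have hprod : (coins n p).real (⋂ a ∈ (Finset.univ : Finset (Fin h)), (N a)ᶜ) =
      (1 - (1 - (1 - p) ^ M) ^ D) ^ h := by
    rw [prod_indep hp0 hp1 R (fun a => (N a)ᶜ) hDepN ?_ Finset.univ]
    · rw [Finset.prod_congr rfl (fun a _ => by
        rw [probReal_compl_eq_one_sub (Set.toFinite _).measurableSet, hN]),
        Finset.prod_const, Finset.card_univ, Fintype.card_fin]
    · intro i j hij
      rw [Finset.disjoint_left]
      intro e he he'
      obtain ⟨k, -, hk⟩ := Finset.mem_image.mp he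
      obtain ⟨k', -, hk'⟩ := Finset.mem_image.mp he'
      exact hij (hpr _ _ _ _ (hk.trans hk'.symm)).1
  rw [← hprod]
  show (coins n p).real _ ≤ _
  refine measureReal_mono ?_
  intro ω hω
  rw [Set.mem_iInter₂]
  intro a _ hNa
  have hNa' : ω ∈ ⋂ i ∈ (Finset.univ : Finset (Fin D)), (E a i)ᶜ := hNa
  rw [Set.mem_iInter₂] at hNa'
  have hex : ∀ i : Fin D, ∃ k : Fin M, ω (pr a (i, k)) = true := by
    intro i
    by_contra hcon
    push Not at hcon
    exact hNa' i (Finset.mem_univ i) (fun k => by simpa using hcon k)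
  choose k hk using hex
  have h1 : (Finset.univ.image (fun i : Fin D => vB (i, k i))).card = D := by
    rw [Finset.card_image_of_injective, Finset.card_univ, Fintype.card_fin]
    intro i j hij
    exact congrArg Prod.fst (hvB hij)
  have h2 : Finset.univ.image (fun i : Fin D => vB (i, k i)) ⊆
      (graph ω).neighborFinset (vA a) := by
    intro v hv
    obtain ⟨i, -, rfl⟩ := Finset.mem_image.mp hv
    rw [SimpleGraph.mem_neighborFinset]
    exact ⟨hvAB a _, hk i⟩
  have h3 := Finset.card_le_card h2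
  rw [h1, SimpleGraph.card_neighborFinset_eq_degree] at h3
  have h4 := (graph ω).degree_le_maxDegree (vA a)
  have h5 : (graph ω).maxDegree < D := hω
  omega

end Pool.Agent.H5.SRG
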