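import Pool.Agent.H5.SRG.Basic

/-!
[SRG Upper] PROOF. The event is contained in the union over `v`, over the `s`-sets `S` not containing `v`, and over
the functions `T` from `S` to the `t`-sets disjoint from `S ∪ {v}` of the event that all coins of
`F = {s(v,u) : u in S} ∪ {s(u,w) : u in S, w in T u}` show heads: a vertex `u` of `S` has more than `k` neighbours, at
most `s` of them in `S ∪ {v}`, so at least `k + 1 - s >= t` outside. `F` has `s + s t` elements, so the probability is
`p ^ (s + s t)` (`cyl`). Union bound: `n * C(n,s) * C(n,t)^s` events.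
-/

set_option autoImplicit false

namespace Pool.Agent.H5.SRG

open MeasureTheory

/-- the coins of a configuration -/
private def upF {n : ℕ} (v : Fin n) (S : Finset (Fin n)) (T : {x // x ∈ S} → Finset (Fin n)) :
    Finset (Sym2 (Fin n)) :=
  S.image (fun u => s(v, u)) ∪
    Finset.univ.biUnion fun u : {x // x ∈ S} => (T u).image fun w => s((u : Fin n), w)

private theorem upF_card {n : ℕ} (v : Fin n) (S : Finset (Fin n)) (hv : v ∉ S) (t : ℕ)
    (T : {x // x ∈ S} → Finset (Fin n)) (hT : ∀ u, (T u).card = t)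
    (hd : ∀ u, ∀ w ∈ T u, w ∉ insert v S) :
    (upF v S T).card = S.card + S.card * t := by
  classical
  unfold upF
  rw [Finset.card_union_of_disjoint, Finset.card_image_of_injOn, Finset.card_biUnion]
  · congr 1
    have : ∀ u ∈ (Finset.univ : Finset {x // x ∈ S}),
        ((T u).image fun w => s((u : Fin n), w)).card = t := by
      intro u _
      rw [Finset.card_image_of_injective, hT u]
      intro w w' h
      exact Sym2.congr_right.mp h
    rw [Finset.sum_congr rfl this, Finset.sum_const, smul_eq_mul, Finset.card_univ,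
      Fintype.card_coe]
  · intro u _ u' _ huu'
    change Disjoint (Finset.image (fun w => s((u : Fin n), w)) (T u))
      (Finset.image (fun w => s((u' : Fin n), w)) (T u'))
    rw [Finset.disjoint_left]
    intro e he he'
    rw [Finset.mem_image] at he he'
    obtain ⟨w, hw, rfl⟩ := he
    obtain ⟨w', hw', h⟩ := he'
    rw [Sym2.eq_iff] at h
    rcases h with ⟨h1, -⟩ | ⟨-, h2⟩
    · exact huu' (Subtype.ext h1.symm)
    · exact hd u' w' hw' (Finset.mem_insert_of_mem (by rw [h2]; exact u.2))
  · intro u _ u' _ h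
    exact Sym2.congr_right.mp h
  · rw [Finset.disjoint_left]
    intro e he he'
    rw [Finset.mem_image] at he
    rw [Finset.mem_biUnion] at he'
    obtain ⟨u, hu, rfl⟩ := he
    obtain ⟨u', -, h⟩ := he'
    rw [Finset.mem_image] at h
    obtain ⟨w, hw, h⟩ := h
    rw [Sym2.eq_iff] at h
    rcases h with ⟨h1, -⟩ | ⟨-, h2⟩
    · exact hv (by rw [← h1]; exact u'.2)
    · exact hd u' w hw (by rw [h2]; exact Finset.mem_insert_self _ _)

private theorem up_one (n s t k : ℕ) (hst : s + t ≤ k + 1) (p : ℝ) (hp0 : 0 ≤ p) (hp1 : p ≤ 1)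
    (v : Fin n) (S : Finset (Fin n)) (hS : S.card = s) :
    (coins n p).real {ω | ∀ u ∈ S, (graph ω).Adj v u ∧ k < (graph ω).degree u} ≤
      p ^ s * ((n.choose t) * p ^ t) ^ s := by
  classical
  haveI := prob_coins n p hp0 hp1
  have hB : (0 : ℝ) ≤ p ^ s * ((n.choose t) * p ^ t) ^ s := by positivity
  by_cases hv : v ∈ S
  · have : {ω : Sym2 (Fin n) → Bool | ∀ u ∈ S, (graph ω).Adj v u ∧ k < (graph ω).degree u} = ∅ := by
      ext ω
      simp only [Set.mem_ofPred_eq, Set.mem_empty_iff_false, iff_false]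
      intro h
      exact (graph ω).irrefl (h v hv).1
    rw [this, measureReal_empty]
    exact hB
  set 𝒯 : Finset ({x // x ∈ S} → Finset (Fin n)) :=
    Fintype.piFinset fun _ => Finset.powersetCard t (Finset.univ \ insert v S) with h𝒯
  have hcov : {ω : Sym2 (Fin n) → Bool | ∀ u ∈ S, (graph ω).Adj v u ∧ k < (graph ω).degree u} ⊆
      ⋃ T ∈ 𝒯, {ω | ∀ e ∈ upF v S T, ω e = true} := by
    intro ω hω
    have hex : ∀ u : {x // x ∈ S}, ∃ T : Finset (Fin n),
        T ⊆ (graph ω).neighborFinset u \ insert v S ∧ T.card = t := by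
      intro u
      refine Finset.exists_subset_card_eq ?_
      have h1 := (hω u u.2).2
      rw [← SimpleGraph.card_neighborFinset_eq_degree] at h1
      have h2 : ((graph ω).neighborFinset u ∩ insert v S).card ≤ s := by
        have h3 : (graph ω).neighborFinset u ∩ insert v S ⊆ (insert v S).erase u := by
          intro w hw
          rw [Finset.mem_inter, SimpleGraph.mem_neighborFinset] at hw
          rw [Finset.mem_erase]
          exact ⟨hw.1.ne', hw.2⟩
        refine (Finset.card_le_card h3).trans ?_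
        rw [Finset.card_erase_of_mem (Finset.mem_insert_of_mem u.2),
          Finset.card_insert_of_notMem hv, hS]
        omega
      have h4 := Finset.card_sdiff_add_card_inter ((graph ω).neighborFinset u) (insert v S)
      omega
    choose T hT1 hT2 using hex
    rw [Set.mem_iUnion₂]
    refine ⟨T, ?_, ?_⟩
    · rw [h𝒯, Fintype.mem_piFinset]
      intro u
      rw [Finset.mem_powersetCard]
      refine ⟨fun w hw => ?_, hT2 u⟩
      have := hT1 u hw
      rw [Finset.mem_sdiff] at this ⊢
      exact ⟨Finset.mem_univ _, this.2⟩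
    · intro e he
      unfold upF at he
      rw [Finset.mem_union, Finset.mem_image, Finset.mem_biUnion] at he
      rcases he with ⟨u, hu, rfl⟩ | ⟨u, -, he⟩
      · exact (hω u hu).1.2
      · rw [Finset.mem_image] at he
        obtain ⟨w, hw, rfl⟩ := he
        have := hT1 u hw
        rw [Finset.mem_sdiff, SimpleGraph.mem_neighborFinset] at this
        exact this.1.2
  have hmem : ∀ T ∈ 𝒯, (coins n p).real {ω | ∀ e ∈ upF v S T, ω e = true} = p ^ (s + s * t) := by
    intro T hT
    rw [h𝒯, Fintype.mem_piFinset] at hT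
    have h1 : ∀ u, (T u).card = t := fun u => (Finset.mem_powersetCard.mp (hT u)).2
    have h2 : ∀ u, ∀ w ∈ T u, w ∉ insert v S := fun u w hw =>
      (Finset.mem_sdiff.mp ((Finset.mem_powersetCard.mp (hT u)).1 hw)).2
    have h3 := (cyl n p hp0 hp1 (upF v S T)).1
    rw [upF_card v S hv t T h1 h2, hS] at h3
    exact h3
  have hcard : (𝒯.card : ℝ) ≤ (n.choose t : ℝ) ^ s := by
    have h1 : 𝒯.card = (Finset.powersetCard t (Finset.univ \ insert v S)).card ^ s := by
      rw [h𝒯, Fintype.card_piFinset, Finset.prod_const, Finset.card_univ, Fintype.card_coe, hS]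
    rw [h1]
    push_cast
    have h2 : ((Finset.powersetCard t (Finset.univ \ insert v S)).card : ℝ) ≤ n.choose t := by
      rw [Finset.card_powersetCard]
      have : (Finset.univ \ insert v S : Finset (Fin n)).card ≤ n := by
        have := Finset.card_le_univ (Finset.univ \ insert v S : Finset (Fin n))
        rwa [Fintype.card_fin] at this
      exact_mod_cast Nat.choose_le_choose t this
    exact pow_le_pow_left₀ (by positivity) h2 s
  calc (coins n p).real {ω | ∀ u ∈ S, (graph ω).Adj v u ∧ k < (graph ω).degree u}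
      ≤ (coins n p).real (⋃ T ∈ 𝒯, {ω | ∀ e ∈ upF v S T, ω e = true}) := measureReal_mono hcov (measure_ne_top _ _)
    _ ≤ ∑ T ∈ 𝒯, (coins n p).real {ω | ∀ e ∈ upF v S T, ω e = true} :=
        measureReal_biUnion_finset_le _ _
    _ = ∑ T ∈ 𝒯, p ^ (s + s * t) := Finset.sum_congr rfl hmem
    _ = 𝒯.card * p ^ (s + s * t) := by rw [Finset.sum_const, nsmul_eq_mul]
    _ ≤ (n.choose t : ℝ) ^ s * p ^ (s + s * t) := by gcongr
    _ = p ^ s * ((n.choose t) * p ^ t) ^ s := by
        rw [mul_pow, ← pow_mul, pow_add, mul_comm s t]; ring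

theorem upper (n s t k : ℕ) (hst : s + t ≤ k + 1) (p : ℝ) (hp0 : 0 ≤ p) (hp1 : p ≤ 1) :
    (coins n p {ω | ∃ v : Fin n, ∃ S : Finset (Fin n), S.card = s ∧
      ∀ u ∈ S, (graph ω).Adj v u ∧ k < (graph ω).degree u}).toReal ≤
      n * (n.choose s) * p ^ s * ((n.choose t) * p ^ t) ^ s := by
  classical
  haveI := prob_coins n p hp0 hp1
  change (coins n p).real {ω | ∃ v : Fin n, ∃ S : Finset (Fin n), S.card = s ∧
      ∀ u ∈ S, (graph ω).Adj v u ∧ k < (graph ω).degree u} ≤ _
  have hcov : {ω : Sym2 (Fin n) → Bool | ∃ v : Fin n, ∃ S : Finset (Fin n), S.card = s ∧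
      ∀ u ∈ S, (graph ω).Adj v u ∧ k < (graph ω).degree u} ⊆
      ⋃ z ∈ (Finset.univ : Finset (Fin n)) ×ˢ Finset.powersetCard s (Finset.univ : Finset (Fin n)),
        {ω | ∀ u ∈ z.2, (graph ω).Adj z.1 u ∧ k < (graph ω).degree u} := by
    rintro ω ⟨v, S, hS, h⟩
    rw [Set.mem_iUnion₂]
    refine ⟨(v, S), ?_, h⟩
    rw [Finset.mem_product, Finset.mem_powersetCard]
    exact ⟨Finset.mem_univ _, Finset.subset_univ _, hS⟩
  calc _ ≤ (coins n p).real (⋃ z ∈ (Finset.univ : Finset (Fin n)) ×ˢ
          Finset.powersetCard s (Finset.univ : Finset (Fin n)),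
        {ω | ∀ u ∈ z.2, (graph ω).Adj z.1 u ∧ k < (graph ω).degree u}) := measureReal_mono hcov (measure_ne_top _ _)
    _ ≤ ∑ z ∈ (Finset.univ : Finset (Fin n)) ×ˢ
          Finset.powersetCard s (Finset.univ : Finset (Fin n)),
        (coins n p).real {ω | ∀ u ∈ z.2, (graph ω).Adj z.1 u ∧ k < (graph ω).degree u} :=
        measureReal_biUnion_finset_le _ _
    _ ≤ ∑ z ∈ (Finset.univ : Finset (Fin n)) ×ˢ
          Finset.powersetCard s (Finset.univ : Finset (Fin n)),
        (p ^ s * ((n.choose t) * p ^ t) ^ s) := by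
        refine Finset.sum_le_sum fun z hz => ?_
        rw [Finset.mem_product, Finset.mem_powersetCard] at hz
        exact up_one n s t k hst p hp0 hp1 z.1 z.2 hz.2.2
    _ = n * (n.choose s) * p ^ s * ((n.choose t) * p ^ t) ^ s := by
        rw [Finset.sum_const, Finset.card_product, Finset.card_powersetCard, Finset.card_univ,
          Fintype.card_fin, nsmul_eq_mul]
        push_cast
        ring

end Pool.Agent.H5.SRG
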