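import Pool.Agent.H5.SRG.Basic
import Pool.Agent.H5.SRG.Upper
import Pool.Agent.H5.SRG.Lower
import Pool.Agent.H5.SRG.AsyL
import Pool.Agent.H5.SRG.AsyU
import Pool.Agent.H5.SRG.Gnm
import Pool.Agent.H5.SRG.Det

set_option autoImplicit false

namespace Pool.Agent.H5.SRG

open MeasureTheory

theorem sharp_of {n : ℕ} (G : SimpleGraph (Fin n)) [inst : DecidableRel G.Adj]
    (h : Acyclic G G.maxDegree) : Sharp G := by
  unfold Sharp
  have e : inst = (fun a b => Classical.propDecidable (G.Adj a b)) := Subsingleton.elim _ _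
  subst e
  exact h

theorem gnp (A : ℝ) (hA : 0 < A) : ∃ n0 : ℕ, ∀ n : ℕ, n0 ≤ n → ∀ p : ℝ,
    1 / (n * Real.log n) ≤ p → p ≤ 10 ^ (-26 : ℤ) * Real.log n / n →
    0 ≤ p ∧ p ≤ 1 ∧ (coins n p {ω | ¬ Sharp (graph ω)}).toReal ≤ (n : ℝ) ^ (-A) := by
  obtain ⟨n1, h1⟩ := asyL A hA
  obtain ⟨n2, h2⟩ := asyU A hA
  refine ⟨max (max n1 n2) 3, fun n hn p hp1 hp2 => ?_⟩
  have hn1 : n1 ≤ n := le_trans (le_trans (le_max_left _ _) (le_max_left _ _)) hn
  have hn2 : n2 ≤ n := le_trans (le_trans (le_max_right _ _) (le_max_left _ _)) hn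
  have hn3 : 3 ≤ n := le_trans (le_max_right _ _) hn
  have hnR : (3 : ℝ) ≤ n := by exact_mod_cast hn3
  have hlog : 0 < Real.log n := Real.log_pos (by linarith)
  have hp0 : 0 ≤ p := le_trans (by positivity) hp1
  have hple : p ≤ 1 := by
    refine hp2.trans ?_
    rw [div_le_one (by linarith)]
    have hl := Real.log_le_sub_one_of_pos (show (0 : ℝ) < n by linarith)
    have h26 : (10 : ℝ) ^ (-26 : ℤ) ≤ 1 := by norm_num
    nlinarith
  refine ⟨hp0, hple, ?_⟩
  haveI := prob_coins n p hp0 hple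
  have hL := h1 n hn1 p hp1 hp2
  obtain ⟨hK, hU⟩ := h2 n hn2 p hp1 hp2
  set D := DD n p with hD
  set K := D / 10 ^ 20 with hKd
  have hlow := lower n (n / 2) D (n / (2 * D)) (by
    have e1 : 2 * D * (n / (2 * D)) ≤ n := Nat.mul_div_le n (2 * D)
    have e2 : 2 * (D * (n / (2 * D))) ≤ n := by rw [← mul_assoc]; exact e1
    omega) p hp0 hple
  have hup := upper n (K / 2) (K / 2) (K - 1) (by omega) p hp0 hple
  have hsub : {ω : Sym2 (Fin n) → Bool | ¬ Sharp (graph ω)} ⊆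
      {ω | (graph ω).maxDegree < D} ∪ {ω | ∃ v : Fin n, ∃ S : Finset (Fin n), S.card = K / 2 ∧
        ∀ u ∈ S, (graph ω).Adj v u ∧ K - 1 < (graph ω).degree u} := by
    intro ω hω
    by_contra hcon
    rw [Set.mem_union, not_or] at hcon
    obtain ⟨c1, c2⟩ := hcon
    rw [Set.mem_setOf_eq, not_lt] at c1
    rw [Set.mem_setOf_eq] at c2
    refine hω (sharp_of _ (det (graph ω) (K / 2) (K - 1) (by omega) c2 ?_))
    have e3 : 10 ^ 20 * K ≤ D := Nat.mul_div_le D (10 ^ 20)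
    have e4 : K - 1 + 1 = K := by omega
    rw [e4]
    exact e3.trans c1
  have hm : (coins n p).real {ω | ¬ Sharp (graph ω)} ≤
      (coins n p).real {ω | (graph ω).maxDegree < D} +
      (coins n p).real {ω | ∃ v : Fin n, ∃ S : Finset (Fin n), S.card = K / 2 ∧
        ∀ u ∈ S, (graph ω).Adj v u ∧ K - 1 < (graph ω).degree u} :=
    (measureReal_mono hsub).trans (measureReal_union_le _ _)
  change (coins n p).real {ω | ¬ Sharp (graph ω)} ≤ _
  change (coins n p).real {ω | (graph ω).maxDegree < D} ≤ _ at hlow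
  change (coins n p).real {ω | ∃ v : Fin n, ∃ S : Finset (Fin n), S.card = K / 2 ∧
        ∀ u ∈ S, (graph ω).Adj v u ∧ K - 1 < (graph ω).degree u} ≤ _ at hup
  linarith [hlow.trans hL, hup.trans hU]

/-- the same for graphs with `m` edges -/
theorem gnmB (A : ℝ) (hA : 0 < A) : ∃ n0 : ℕ, ∀ n : ℕ, n0 ≤ n → ∀ m : ℕ,
    n / (2 * Real.log n) ≤ m → (m : ℝ) ≤ 10 ^ (-27 : ℤ) * n * Real.log n →
    (Set.ncard {G : SimpleGraph (Fin n) | G.edgeSet.ncard = m ∧ ¬ Sharp G} : ℝ) ≤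
      (n : ℝ) ^ (-A) * ((n.choose 2).choose m) := by
  obtain ⟨n1, h1⟩ := gnp (A + 2) (by linarith)
  refine ⟨max n1 3, fun n hn m hm1 hm2 => ?_⟩
  have hn1 : n1 ≤ n := le_trans (le_max_left _ _) hn
  have hn3 : 3 ≤ n := le_trans (le_max_right _ _) hn
  have hnR : (3 : ℝ) ≤ n := by exact_mod_cast hn3
  have hlog : 0 < Real.log n := Real.log_pos (by linarith)
  have hl := Real.log_le_sub_one_of_pos (show (0 : ℝ) < n by linarith)
  have hN : ((n.choose 2 : ℕ) : ℝ) = n * (n - 1) / 2 := Nat.cast_choose_two ℝ n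
  have hNpos : (0 : ℝ) < ((n.choose 2 : ℕ) : ℝ) := by
    rw [hN]; nlinarith
  have hN1 : 1 ≤ n.choose 2 := by
    have : 0 < n.choose 2 := by exact_mod_cast hNpos
    omega
  have h27 : (0 : ℝ) < 10 ^ (-27 : ℤ) := by positivity
  have h2627 : (10 : ℝ) ^ (-26 : ℤ) = 10 * 10 ^ (-27 : ℤ) := by norm_num
  have hmN : m ≤ n.choose 2 := by
    have e1 : (m : ℝ) ≤ ((n.choose 2 : ℕ) : ℝ) := by
      refine hm2.trans ?_
      rw [hN]
      have e2 : (10 : ℝ) ^ (-27 : ℤ) ≤ 1 / 2 := by norm_num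
      have e3 : (10 : ℝ) ^ (-27 : ℤ) * n * Real.log n ≤ 1 / 2 * n * Real.log n := by gcongr
      have e4 : 1 / 2 * n * Real.log n ≤ 1 / 2 * n * ((n : ℝ) - 1) := by gcongr
      linarith
    exact_mod_cast e1
  obtain ⟨-, -, hp⟩ := h1 n hn1 ((m : ℝ) / n.choose 2) (by
      rw [div_le_div_iff₀ (by positivity) hNpos, hN]
      have e1 : n ≤ (m : ℝ) * (2 * Real.log n) := by
        rwa [div_le_iff₀ (by positivity)] at hm1
      nlinarith) (by
      rw [div_le_div_iff₀ hNpos (by linarith), hN, h2627]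
      have e1 : (m : ℝ) * n ≤ 10 ^ (-27 : ℤ) * n * Real.log n * n := by gcongr
      have e2 : 10 ^ (-27 : ℤ) * n * Real.log n * n ≤
          10 ^ (-27 : ℤ) * n * Real.log n * (5 * ((n : ℝ) - 1)) := by
        gcongr
        linarith
      refine e1.trans (e2.trans (le_of_eq ?_))
      ring)
  have hg := gnm n m hmN hN1 (fun G => ¬ Sharp G)
  refine hg.trans ?_
  have e1 : ((n.choose 2 : ℝ) + 1) ≤ (n : ℝ) ^ (2 : ℝ) := by
    rw [hN, show ((2 : ℝ)) = ((2 : ℕ) : ℝ) by norm_num, Real.rpow_natCast]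
    push_cast
    nlinarith
  have e2 : ((n.choose 2 : ℝ) + 1) * (coins n ((m : ℝ) / n.choose 2) {ω | ¬ Sharp (graph ω)}).toReal ≤
      (n : ℝ) ^ (2 : ℝ) * (n : ℝ) ^ (-(A + 2)) :=
    mul_le_mul e1 hp ENNReal.toReal_nonneg (by positivity)
  rw [← Real.rpow_add (by linarith)] at e2
  rw [show (2 : ℝ) + -(A + 2) = -A by ring] at e2
  exact mul_le_mul_of_nonneg_right e2 (by positivity)

theorem count_ge (n m : ℕ) :
    (n.choose 2).choose m ≤ Set.ncard {G : SimpleGraph (Fin n) | G.edgeSet.ncard = m} := by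
  classical
  let T : Finset (Sym2 (Fin n)) := Finset.univ.filter fun e => ¬ e.IsDiag
  have hT : T.card = n.choose 2 := by
    have := Sym2.card_subtype_not_diag (α := Fin n)
    rw [Fintype.card_fin] at this
    rw [← this, Fintype.card_subtype]
  rw [← hT, ← Finset.card_powersetCard m T, ← Set.ncard_coe_finset]
  refine Set.ncard_le_ncard_of_injOn (fun S => SimpleGraph.fromEdgeSet (S : Set (Sym2 (Fin n)))) ?_ ?_
    (Set.toFinite _)
  · intro S hS
    rw [Finset.mem_coe, Finset.mem_powersetCard] at hS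
    obtain ⟨h1, h2⟩ := hS
    change (SimpleGraph.fromEdgeSet (S : Set (Sym2 (Fin n)))).edgeSet.ncard = m
    have e : (SimpleGraph.fromEdgeSet (S : Set (Sym2 (Fin n)))).edgeSet = (S : Set (Sym2 (Fin n))) := by
      rw [SimpleGraph.edgeSet_fromEdgeSet]
      ext x
      simp only [Set.mem_diff, Finset.mem_coe]
      constructor
      · exact fun h => h.1
      · intro h
        refine ⟨h, ?_⟩
        have := (Finset.mem_filter.mp (h1 h)).2
        exact this
    rw [e, Set.ncard_coe_finset, h2]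
  · intro S hS S' hS' h
    have e : ∀ U ∈ (Finset.powersetCard m T : Finset (Finset (Sym2 (Fin n)))),
        (SimpleGraph.fromEdgeSet (U : Set (Sym2 (Fin n)))).edgeSet = (U : Set (Sym2 (Fin n))) := by
      intro U hU
      rw [Finset.mem_powersetCard] at hU
      rw [SimpleGraph.edgeSet_fromEdgeSet]
      ext x
      simp only [Set.mem_diff, Finset.mem_coe]
      constructor
      · exact fun h => h.1
      · intro h
        refine ⟨h, ?_⟩
        have := (Finset.mem_filter.mp (hU.1 h)).2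
        exact this
    have h1 := congrArg SimpleGraph.edgeSet h
    change (SimpleGraph.fromEdgeSet (S : Set (Sym2 (Fin n)))).edgeSet =
      (SimpleGraph.fromEdgeSet (S' : Set (Sym2 (Fin n)))).edgeSet at h1
    rw [e S hS, e S' hS'] at h1
    exact_mod_cast h1

/-- For every `A > 0`, all `n ≥ n₀(A)` and all `m` with `n / (2 log n) ≤ m ≤ 10^(-27) n log n`, all but a proportion of at most
`n^(-A)` of the graphs with `n` vertices and `m` edges satisfy `a'(G) = Δ(G)`. -/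
theorem final (A : ℝ) (hA : 0 < A) : ∃ n₀ : ℕ, ∀ n m : ℕ, n₀ ≤ n →
    n / (2 * Real.log n) ≤ m → m ≤ 10 ^ (-27 : ℤ) * n * Real.log n →
    (Set.ncard {G : SimpleGraph (Fin n) | G.edgeSet.ncard = m ∧ ¬ Sharp G} : ℝ) ≤
      (n : ℝ) ^ (-A) * Set.ncard {G : SimpleGraph (Fin n) | G.edgeSet.ncard = m} := by
  obtain ⟨n0, h0⟩ := gnmB A hA
  refine ⟨n0, fun n m hn hm1 hm2 => (h0 n hn m hm1 hm2).trans ?_⟩
  exact mul_le_mul_of_nonneg_left (by exact_mod_cast count_ge n m) (by positivity)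

end Pool.Agent.H5.SRG
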